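import Pool.Agent.Full.Macro.Chart
import Pool.Agent.Full.Walk.RswIn

/-!
# Macroscopic strands: the unconditional statements
-/

set_option autoImplicit false

namespace Full.Macro

open Finset Full.Mom
open Full.Perc (Ex)
open Full.Walk (exists_q)

/-- **macroscopic strands, moments** -/
theorem moment {Q : ℝ} (hQ : 1 ≤ Q) (B : ℕ) :
    ∃ C : ℝ, 1 ≤ C ∧ ∀ (τ : Type*) [DecidableEq τ] (T : Finset τ) (g : Half τ → Half τ) (m : ℕ)
      (κ : Type*) [Fintype κ] (c : κ → Box T g m), Fintype.card κ ≤ B → 1 ≤ m →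
      Ex T (fun ω => Q ^ (∑ a, (c a).X ω)) ≤ C := by
  obtain ⟨q, hq⟩ := exists_q
  exact macro_moment hq hQ B

/-- the same for bits -/
theorem moment_avg {Q : ℝ} (hQ : 1 ≤ Q) (B : ℕ) :
    ∃ C : ℝ, 1 ≤ C ∧ ∀ (τ : Type*) [DecidableEq τ] (T : Finset τ) (g : Half τ → Half τ) (m : ℕ)
      (κ : Type*) [Fintype κ] (c : κ → Box T g m), Fintype.card κ ≤ B → 1 ≤ m →
      avg (fun ω : T → Bool => Q ^ (∑ a, (c a).X (Full.Walk.ofBits T ω))) ≤ C := by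
  obtain ⟨C, hC1, hC⟩ := moment hQ B
  refine ⟨C, hC1, fun τ _ T g m κ _ c hB hm => ?_⟩
  rw [← Full.Walk.Ex_eq_avg T (fun ω => Q ^ (∑ a, (c a).X ω))]
  exact hC τ T g m κ c hB hm

/-- strands which cross a rectangle of bounded aspect ratio inside `Λ` -/
theorem rect_moment {α Q : ℝ} (hα : 0 < α) (hQ : 1 ≤ Q) :
    ∃ C : ℝ, 1 ≤ C ∧ ∀ (τ : Type*) [DecidableEq τ] (T : Finset τ) (ψ : ℤ → ℤ → τ) (Λ : ℤ → ℤ → Prop)
      (a s : ℤ) (w K : ℕ), (w : ℝ) ≤ α * K →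
      (∀ i j, Full.Walk.win a (a + w) s K i j → Λ i j → ψ i j ∈ T) →
      (∀ i j i' j', Full.Walk.win a (a + w) s K i j → Λ i j → Full.Walk.win a (a + w) s K i' j' → Λ i' j' →
        ψ i j = ψ i' j' → i = i' ∧ j = j') →
      Ex T (fun ω => Q ^ Full.Walk.XL (Full.Walk.cbits ψ ω) Λ a (a + w) s K) ≤ C := by
  obtain ⟨q, hq⟩ := exists_q
  exact Full.Walk.Ex_XL_le hq hα hQ

end Full.Macro
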