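import Pool.Agent.Full.Macro.Moment
import Pool.Agent.Full.Def.Surf

/-!
# Macroscopic strands on a tile surface

A box chart of radius `m` of the surface `(T, g)` shows the part of the surface around a point in the
planar box `[-2m-1, 2m+1)²` (walls anywhere).  `macro_count`: the number of the strands which start in the
inner boxes `[-m, m)²` and are not contained in their charts is at most `∑ X`;  `macro_moment`: all
exponential moments of `∑ X` are bounded, uniformly in the surface and in `m`.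
-/

set_option autoImplicit false
set_option linter.unusedSectionVars false

namespace Full.Macro

open Finset
open Full.Perc (Ex)
open Full.Walk (St pos step rev bx cbits turn rI X4 XL Cr4 Emb Exits RswQ rB rP)

/-- the side of a tile in the direction of a heading -/
def sd : Walk.Dir → Full.Dir
  | .N => .N
  | .E => .E
  | .S => .S
  | .W => .W

lemma sd_surj (d : Full.Dir) : ∃ d' : Walk.Dir, sd d'.neg = d := by
  cases d
  · exact ⟨.W, rfl⟩
  · exact ⟨.S, rfl⟩
  · exact ⟨.E, rfl⟩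
  · exact ⟨.N, rfl⟩

lemma mt_sd (v : Bool) (d : Walk.Dir) : Full.Dir.mt v (sd d.neg) = sd (turn v d) := by
  cases v <;> cases d <;> rfl

lemma sd_neg (d : Walk.Dir) : sd d.neg = (sd d).opp := by cases d <;> rfl

variable {τ : Type*}

/-- the half edge through which the walker has entered its tile -/
def inh (φ : ℤ → ℤ → τ) (s : St) : Half τ := (φ s.i s.j, sd s.d.neg)

/-- a box chart of radius `m` -/
structure Box (T : Finset τ) (g : Half τ → Half τ) (m : ℕ) where
  /-- the tile at a place of the box -/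
  φ : ℤ → ℤ → τ
  /-- the places of the box which are tiles -/
  Λ : ℤ → ℤ → Prop
  sub : ∀ i j, Λ i j → bx (2 * m + 1) i j
  mem : ∀ i j, Λ i j → φ i j ∈ T
  inj : ∀ i j i' j', Λ i j → Λ i' j' → φ i j = φ i' j' → i = i' ∧ j = j'
  glue : ∀ i j (d : Walk.Dir), Λ i j → bx (2 * m + 1) (i + d.dx) (j + d.dy) →
    g (φ i j, sd d) = (φ i j, sd d) ∨
      (Λ (i + d.dx) (j + d.dy) ∧ g (φ i j, sd d) = (φ (i + d.dx) (j + d.dy), sd d.neg))

namespace Box

variable {T : Finset τ} {g : Half τ → Half τ} {m : ℕ} (c : Box T g m)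

/-- the half edge belongs to a tile of the inner box -/
def Inner (y : Half τ) : Prop := ∃ i j, c.Λ i j ∧ bx m i j ∧ y.1 = c.φ i j

variable [DecidableEq τ]

/-- the strand of `y` is contained in the chart -/
def Holds (ω : Finset τ) (y : Half τ) : Prop :=
  ∀ x, Full.Conn (mate ω) g y x → ∃ i j, c.Λ i j ∧ x.1 = c.φ i j

/-- the number of the strands which cross one of the four rectangles around the inner box -/
noncomputable def X (ω : Finset τ) : ℕ := X4 (cbits c.φ ω) c.Λ m

lemma mate_inh (φ : ℤ → ℤ → τ) (ω : Finset τ) (s : St) :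
    mate ω (inh φ s) = (φ s.i s.j, sd (turn (cbits φ ω s.i s.j) s.d)) := by
  unfold mate inh cbits
  simp only [mt_sd]

/-- the walk from `s` follows the strand for `l` steps inside the chart -/
def Good (ω : Finset τ) (s : St) (l : ℕ) : Prop :=
  (∀ k ≤ l, c.Λ (pos (cbits c.φ ω) s k).i (pos (cbits c.φ ω) s k).j) ∧
    ∀ k < l, g (mate ω (inh c.φ (pos (cbits c.φ ω) s k))) = inh c.φ (pos (cbits c.φ ω) s (k + 1))

variable {c}

lemma Good.conn {ω : Finset τ} {s : St} {l : ℕ} (h : c.Good ω s l) :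
    ∀ k ≤ l, Full.Conn (mate ω) g (inh c.φ s) (inh c.φ (pos (cbits c.φ ω) s k)) := by
  intro k
  induction k with
  | zero => intro _; exact Full.Conn.refl _
  | succ k ih =>
    intro hk
    refine (ih (by omega)).trans ?_
    rw [← h.2 k (by omega)]
    exact (Full.Conn.m_step _).trans (Full.Conn.g_step _)

/-- a half edge where a crossing starts -/
def Start (c : Box T g m) (ω : Finset τ) (k : ℕ) (x : ℤ) : Prop :=
  k < 4 ∧ -(2 * (m : ℤ) + 1) ≤ x ∧ x < 2 * m + 1 ∧ Cr4 (cbits c.φ ω) c.Λ m k x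

lemma step_or {ω : Finset τ} (hm : 1 ≤ m) {s : St} (hs : bx (m + 1) s.i s.j) {l : ℕ}
    (hg : c.Good ω s l)
    (hno : ∀ k x, c.Start ω k x → ¬ Full.Conn (mate ω) g (inh c.φ s) (inh c.φ (rI k ⟨x, m + 1, .N⟩))) :
    g (mate ω (inh c.φ (pos (cbits c.φ ω) s l))) = mate ω (inh c.φ (pos (cbits c.φ ω) s l)) ∨
      (c.Good ω s (l + 1) ∧
        g (mate ω (inh c.φ (pos (cbits c.φ ω) s l))) = inh c.φ (pos (cbits c.φ ω) s (l + 1))) := by
  set b := cbits c.φ ω with hb
  have hstep : pos b s (l + 1) = step b (pos b s l) := Full.Walk.pos_succ b s l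
  set t := pos b s l with ht
  have hbx : bx (2 * m + 1) (step b t).i (step b t).j := by
    by_contra hnb
    have hex : Exits b (fun i j => bx (2 * m + 1) i j ∧ c.Λ i j) s (step b t) := by
      refine ⟨l + 1, fun k hk => ⟨c.sub _ _ (hg.1 k (by omega)), hg.1 k (by omega)⟩, ?_, hstep⟩
      rw [hstep]
      exact fun h => hnb h.1
    obtain ⟨k, l', x, h1, h2, h3, h4, h5, h6⟩ := Full.Walk.exit_box hm hs hex hnb
    have hl' : l' ≤ l := by
      by_contra hlt
      have := (h5 (l + 1) (by omega)).1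
      rw [hstep] at this
      exact hnb this
    refine hno k x ⟨h1, h2, h3, h6⟩ ?_
    rw [← h4]
    exact hg.conn l' hl'
  have hmate : mate ω (inh c.φ t) = (c.φ t.i t.j, sd (turn (b t.i t.j) t.d)) := mate_inh c.φ ω t
  rcases c.glue t.i t.j (turn (b t.i t.j) t.d) (hg.1 l le_rfl) hbx with h1 | ⟨h1, h2⟩
  · left
    rw [hmate, h1]
  · right
    have h3 : g (mate ω (inh c.φ t)) = inh c.φ (step b t) := by
      rw [hmate, h2]
      rfl
    refine ⟨⟨fun k hk => ?_, fun k hk => ?_⟩, ?_⟩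
    · rcases Nat.lt_or_ge l k with hlt | hge
      · have : k = l + 1 := by omega
        rw [this, hstep]
        exact h1
      · exact hg.1 k hge
    · rcases Nat.lt_or_ge k l with hlt | hge
      · exact hg.2 k hlt
      · have : k = l := by omega
        rw [this, hstep]
        exact h3
    · rw [hstep]
      exact h3

/-- **a strand which is not contained in the chart crosses one of the four rectangles** -/
theorem exists_start (hG : Glu T g) (hm : 1 ≤ m) {ω : Finset τ} {y : Half τ} (hy : c.Inner y)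
    (hn : ¬ c.Holds ω y) :
    ∃ k x, c.Start ω k x ∧ Full.Conn (mate ω) g y (inh c.φ (rI k ⟨x, m + 1, .N⟩)) := by
  by_contra hno
  push Not at hno
  apply hn
  obtain ⟨i0, j0, hΛ, hin, hy1⟩ := hy
  obtain ⟨d, hd⟩ := sd_surj y.2
  have hbx0 := hin
  unfold bx at hbx0
  -- the two starting states
  set sA : St := ⟨i0, j0, d⟩ with hsA
  set sB : St := rev sA with hsB
  have hyA : inh c.φ sA = y := by
    unfold inh
    rw [hsA]
    exact Prod.ext hy1.symm hd
  have hsA' : bx (m + 1) sA.i sA.j := by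
    unfold bx
    rw [hsA]
    simp only
    omega
  have hdB : (d.dx = 0 ∨ d.dx = 1 ∨ d.dx = -1) ∧ (d.dy = 0 ∨ d.dy = 1 ∨ d.dy = -1) := by
    cases d <;> simp [Walk.Dir.dx, Walk.Dir.dy]
  have hsB' : bx (m + 1) sB.i sB.j := by
    unfold bx
    rw [hsB, hsA]
    unfold rev
    simp only
    omega
  have hgA0 : c.Good ω sA 0 := by
    refine ⟨fun k hk => ?_, fun k hk => absurd hk (by omega)⟩
    have : k = 0 := by omega
    subst this
    exact hΛ
  have hgy : g y = y ∨ (c.Λ sB.i sB.j ∧ g y = inh c.φ sB) := by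
    have h1 := c.glue i0 j0 d.neg hΛ (by
      unfold bx
      rw [Full.Walk.dx_neg, Full.Walk.dy_neg]
      omega)
    have h2 : (c.φ i0 j0, sd d.neg) = y := hyA
    rw [h2, Full.Walk.dx_neg, Full.Walk.dy_neg, ← sub_eq_add_neg, ← sub_eq_add_neg] at h1
    rcases h1 with h1 | ⟨h1, h3⟩
    · exact Or.inl h1
    · exact Or.inr ⟨h1, h3⟩
  -- the set of the half edges which are reached
  set C : Half τ → Prop := fun x =>
    (∃ l, c.Good ω sA l ∧ (x = inh c.φ (pos (cbits c.φ ω) sA l) ∨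
      x = mate ω (inh c.φ (pos (cbits c.φ ω) sA l)))) ∨
    (g y = inh c.φ sB ∧ ∃ l, c.Good ω sB l ∧ (x = inh c.φ (pos (cbits c.φ ω) sB l) ∨
      x = mate ω (inh c.φ (pos (cbits c.φ ω) sB l)))) with hC
  have hnoA : ∀ k x, c.Start ω k x →
      ¬ Full.Conn (mate ω) g (inh c.φ sA) (inh c.φ (rI k ⟨x, m + 1, .N⟩)) := by
    intro k x hk
    rw [hyA]
    exact hno k x hk
  have hnoB : g y = inh c.φ sB → ∀ k x, c.Start ω k x →
      ¬ Full.Conn (mate ω) g (inh c.φ sB) (inh c.φ (rI k ⟨x, m + 1, .N⟩)) := by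
    intro h k x hk hc
    apply hno k x hk
    refine (Full.Conn.g_step y).trans ?_
    rw [h]
    exact hc
  have hCy : C y := Or.inl ⟨0, hgA0, Or.inl hyA.symm⟩
  have hgood_le : ∀ s l, c.Good ω s (l + 1) → c.Good ω s l := fun s l h =>
    ⟨fun k hk => h.1 k (by omega), fun k hk => h.2 k (by omega)⟩
  have hCm : ∀ x, C x → C (mate ω x) := by
    rintro x (⟨l, h1, h2 | h2⟩ | ⟨h0, l, h1, h2 | h2⟩)
    · exact Or.inl ⟨l, h1, Or.inr (by rw [h2])⟩
    · exact Or.inl ⟨l, h1, Or.inl (by rw [h2, mate_mate])⟩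
    · exact Or.inr ⟨h0, l, h1, Or.inr (by rw [h2])⟩
    · exact Or.inr ⟨h0, l, h1, Or.inl (by rw [h2, mate_mate])⟩
  have hCg : ∀ x, C x → C (g x) := by
    rintro x (⟨l, h1, h2 | h2⟩ | ⟨h0, l, h1, h2 | h2⟩)
    · rcases Nat.eq_zero_or_pos l with h3 | h3
      · subst h3
        rw [h2, Full.Walk.pos_zero, hyA]
        rcases hgy with h4 | ⟨h4, h5⟩
        · rw [h4]
          exact hCy
        · right
          refine ⟨h5, 0, ⟨fun k hk => ?_, fun k hk => absurd hk (by omega)⟩, Or.inl h5⟩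
          have : k = 0 := by omega
          subst this
          exact h4
      · obtain ⟨l, rfl⟩ := Nat.exists_eq_succ_of_ne_zero (by omega : l ≠ 0)
        left
        refine ⟨l, hgood_le _ _ h1, Or.inr ?_⟩
        rw [h2, Nat.succ_eq_add_one, ← h1.2 l (by omega), hG.inv]
    · rcases step_or hm hsA' h1 hnoA with h3 | ⟨h3, h4⟩
      · rw [h2, h3]
        exact Or.inl ⟨l, h1, Or.inr rfl⟩
      · rw [h2, h4]
        exact Or.inl ⟨l + 1, h3, Or.inl rfl⟩
    · rcases Nat.eq_zero_or_pos l with h3 | h3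
      · subst h3
        rw [h2, Full.Walk.pos_zero, ← h0, hG.inv]
        exact hCy
      · obtain ⟨l, rfl⟩ := Nat.exists_eq_succ_of_ne_zero (by omega : l ≠ 0)
        right
        refine ⟨h0, l, hgood_le _ _ h1, Or.inr ?_⟩
        rw [h2, Nat.succ_eq_add_one, ← h1.2 l (by omega), hG.inv]
    · rcases step_or hm hsB' h1 (hnoB h0) with h3 | ⟨h3, h4⟩
      · rw [h2, h3]
        exact Or.inr ⟨h0, l, h1, Or.inr rfl⟩
      · rw [h2, h4]
        exact Or.inr ⟨h0, l + 1, h3, Or.inl rfl⟩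
  intro x hx
  have hCx : C x := by
    induction hx with
    | refl => exact hCy
    | tail _ h2 ih =>
      rcases h2 with rfl | rfl
      · exact hCm _ ih
      · exact hCg _ ih
  rcases hCx with ⟨l, h1, h2 | h2⟩ | ⟨-, l, h1, h2 | h2⟩
  · exact ⟨_, _, h1.1 l le_rfl, by rw [h2]; rfl⟩
  · exact ⟨_, _, h1.1 l le_rfl, by rw [h2]; rfl⟩
  · exact ⟨_, _, h1.1 l le_rfl, by rw [h2]; rfl⟩
  · exact ⟨_, _, h1.1 l le_rfl, by rw [h2]; rfl⟩

end Box

variable [DecidableEq τ] {T : Finset τ} {g : Half τ → Half τ} {m : ℕ}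

/-- **macroscopic strands, counting**: the number of the strands which are not contained in the box
charts of their starting points -/
theorem macro_count (hG : Glu T g) (hm : 1 ≤ m) {κ : Type*} [Fintype κ] (c : κ → Box T g m)
    (ω : Finset τ) (S : Finset (Half τ))
    (hS : ∀ x ∈ S, ∀ y ∈ S, Full.Conn (mate ω) g x y → x = y)
    (h : ∀ y ∈ S, ∃ a, (c a).Inner y ∧ ¬ (c a).Holds ω y) :
    S.card ≤ ∑ a, (c a).X ω := by
  classical
  have h1 : ∀ y ∈ S, ∃ p : κ × ℕ × ℤ, (c p.1).Start ω p.2.1 p.2.2 ∧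
      Full.Conn (mate ω) g y (inh (c p.1).φ (rI p.2.1 ⟨p.2.2, m + 1, .N⟩)) := by
    intro y hy
    obtain ⟨a, h2, h3⟩ := h y hy
    obtain ⟨k, x, h4, h5⟩ := Box.exists_start hG hm h2 h3
    exact ⟨(a, k, x), h4, h5⟩
  rcases S.eq_empty_or_nonempty with h0 | ⟨y0, hy0⟩
  · subst h0
    rw [card_empty]
    exact Nat.zero_le _
  have : Nonempty κ := (h y0 hy0).nonempty
  choose! f hf1 hf2 using h1
  have h2 : ∑ a, (c a).X ω = ((univ : Finset κ).sigma (fun a => (range 4).sigma (fun k =>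
      (Ico (-(2 * (m : ℤ) + 1)) (-(2 * m + 1) + (4 * m + 2 : ℕ))).filter
        (fun x => Cr4 (cbits (c a).φ ω) (c a).Λ m k x)))).card := by
    rw [card_sigma]
    apply sum_congr rfl
    intro a _
    rw [card_sigma]
    unfold Box.X X4
    apply sum_congr rfl
    intro k _
    unfold XL Cr4
    congr 1
  rw [h2]
  apply card_le_card_of_injOn (fun y => ⟨(f y).1, ⟨(f y).2.1, (f y).2.2⟩⟩)
  · intro y hy
    have h3 := hf1 y hy
    rw [mem_coe, mem_sigma, mem_sigma, mem_filter, mem_Ico, mem_range]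
    refine ⟨mem_univ _, h3.1, ⟨h3.2.1, ?_⟩, h3.2.2.2⟩
    have := h3.2.2.1
    push_cast
    omega
  · intro y hy y' hy' he
    have e1 : (f y).1 = (f y').1 := congrArg Sigma.fst he
    have e2 : f y = f y' := by
      have h3 : ((f y).1, ((f y).2.1, (f y).2.2)) = ((f y').1, ((f y').2.1, (f y').2.2)) := by
        simp only [Sigma.mk.injEq, heq_eq_eq] at he
        obtain ⟨g1, g2⟩ := he
        rw [g1]
        obtain ⟨g3, g4⟩ := g2
        rw [g3, g4]
      exact h3
    have h3 := hf2 y hy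
    have h4 := hf2 y' hy'
    rw [← e2] at h4
    exact hS y hy y' hy' (h3.trans ((hG.two ω).symm h4))

/-- **macroscopic strands, moments** -/
theorem macro_moment {q : ℝ} (hq : RswQ q) {Q : ℝ} (hQ : 1 ≤ Q) (B : ℕ) :
    ∃ C : ℝ, 1 ≤ C ∧ ∀ (τ : Type*) [DecidableEq τ] (T : Finset τ) (g : Half τ → Half τ) (m : ℕ)
      (κ : Type*) [Fintype κ] (c : κ → Box T g m), Fintype.card κ ≤ B → 1 ≤ m →
      Ex T (fun ω => Q ^ (∑ a, (c a).X ω)) ≤ C := by
  obtain ⟨C, hC1, hC⟩ := Full.Walk.Ex_X4_le hq hQ B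
  refine ⟨C, hC1, ?_⟩
  intro τ _ T g m κ _ c hB hm
  exact hC τ T κ (fun a => (c a).φ) (fun a => (c a).Λ) m hB hm (fun a => ⟨(c a).mem, (c a).inj⟩)

end Full.Macro
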