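import Pool.Agent.Full.Macro.Rect

/-!
# Leaving a box

A walk which starts in the inner box `[-m-1, m+1)²` and leaves the box `[-2m-1, 2m+1)²` crosses one of the
four rectangles between the boxes.  `X4 b Λ m` is the number of the strands which cross them (four
directions).
-/

set_option autoImplicit false
set_option linter.unusedSectionVars false

namespace Full.Walk

open Finset Full.Mom
open Full.Perc (Ex)

variable {b : ℤ → ℤ → Bool}

/-- the tiles of the box of radius `R` -/
def bx (R : ℤ) (i j : ℤ) : Prop := -R ≤ i ∧ i < R ∧ -R ≤ j ∧ j < R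

/-- the rotated region -/
def rotP (Λ : ℤ → ℤ → Prop) : ℤ → ℤ → Prop := fun p q => Λ q (-p - 1)

/-- the rotated state, backwards -/
def rotI (t : St) : St := ⟨t.j, -t.i - 1, rotD (rotD (rotD t.d))⟩

@[simp] lemma rotI_rot (t : St) : rotI (rot t) = t := by
  obtain ⟨i, j, d⟩ := t
  unfold rotI rot
  cases d <;> simp [rotD]

@[simp] lemma rot_rotI (t : St) : rot (rotI t) = t := by
  obtain ⟨i, j, d⟩ := t
  unfold rotI rot
  cases d <;> simp [rotD]

lemma rot_injM {s t : St} (h : rot s = rot t) : s = t := by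
  rw [← rotI_rot s, h, rotI_rot]

lemma Exits.rot {Rg : ℤ → ℤ → Prop} {s e : St} (h : Exits b Rg s e) :
    Exits (rotB b) (rotP Rg) (Full.Walk.rot s) (Full.Walk.rot e) := by
  obtain ⟨n, h1, h2, h3⟩ := h
  refine ⟨n, fun m hm => ?_, ?_, ?_⟩
  · rw [pos_rot]
    unfold rotP Full.Walk.rot
    simp only [sub_neg_eq_add, neg_sub, add_sub_cancel_left]
    have := h1 m hm
    convert this using 1
  · rw [pos_rot]
    intro h4
    apply h2
    unfold rotP Full.Walk.rot at h4
    simp only [sub_neg_eq_add, neg_sub, add_sub_cancel_left] at h4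
    convert h4 using 1
  · rw [pos_rot, h3]

lemma rotP_bx {R : ℤ} {Λ : ℤ → ℤ → Prop} : rotP (fun i j => bx R i j ∧ Λ i j) =
    fun i j => bx R i j ∧ rotP Λ i j := by
  funext p q
  unfold rotP bx
  apply propext
  constructor
  · rintro ⟨h1, h2⟩
    exact ⟨by omega, h2⟩
  · rintro ⟨h1, h2⟩
    exact ⟨by omega, h2⟩

/-- the last entrance into the rows above `m` -/
lemma exit_top {m : ℕ} (hm : 1 ≤ m) {Λ : ℤ → ℤ → Prop} {s e : St} (hs : s.j < m + 1)
    (h : Exits b (fun i j => bx (2 * m + 1) i j ∧ Λ i j) s e) (he : e.j = 2 * m + 1) :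
    ∃ (l : ℕ) (x : ℤ), pos b s l = ⟨x, m + 1, .N⟩ ∧
      (∀ k ≤ l, bx (2 * m + 1) (pos b s k).i (pos b s k).j ∧ Λ (pos b s k).i (pos b s k).j) ∧
      CrL b Λ (-(2 * m + 1)) (-(2 * m + 1) + (4 * m + 2 : ℕ)) (m + 1) m x := by
  classical
  obtain ⟨n, h1, h2, h3⟩ := h
  set l0 := Nat.findGreatest (fun k => (pos b s k).j < m + 1) n with hl0
  have hP0 : (pos b s l0).j < m + 1 :=
    Nat.findGreatest_spec (P := fun k => (pos b s k).j < m + 1) (m := 0) (Nat.zero_le n) hs
  have hle : l0 ≤ n := Nat.findGreatest_le n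
  have hgt : ∀ k, l0 < k → k ≤ n → ((m : ℤ) + 1 ≤ (pos b s k).j) := by
    intro k hk hkn
    have := Nat.findGreatest_is_greatest hk hkn
    omega
  have hln : l0 < n := by
    rcases Nat.lt_or_ge l0 n with hlt | hge
    · exact hlt
    · have hle2 : l0 = n := le_antisymm hle hge
      rw [hle2, h3, he] at hP0
      omega
  have e1 := hgt (l0 + 1) (by omega) (by omega)
  have e2 : (pos b s (l0 + 1)).j = (pos b s l0).j + (pos b s (l0 + 1)).d.dy := by
    rw [pos_succ]
    rfl
  have e3 : (pos b s (l0 + 1)).d = .N ∧ (pos b s (l0 + 1)).j = m + 1 := by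
    rcases dy_cases (pos b s (l0 + 1)).d with h4 | ⟨h4, h5⟩ | ⟨h4, h5⟩
    · omega
    · exact ⟨h4, by omega⟩
    · omega
  have hlt : l0 + 1 < n := by
    rcases Nat.lt_or_ge (l0 + 1) n with hlt | hge
    · exact hlt
    · have hle2 : l0 + 1 = n := le_antisymm hln hge
      rw [hle2, h3, he] at e3
      have := e3.2
      omega
  refine ⟨l0 + 1, (pos b s (l0 + 1)).i, ?_, fun k hk => h1 k (by omega), ?_⟩
  · ext
    · rfl
    · exact e3.2
    · exact e3.1
  · have hst : (⟨(pos b s (l0 + 1)).i, m + 1, .N⟩ : St) = pos b s (l0 + 1) := by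
      ext
      · rfl
      · exact e3.2.symm
      · exact e3.1.symm
    refine ⟨e, ?_, by rw [he]; ring⟩
    rw [hst]
    have key : ∀ k, pos b (pos b s (l0 + 1)) k = pos b s (l0 + 1 + k) := fun k => (pos_add b s _ _).symm
    refine ⟨n - (l0 + 1), fun k hk => ?_, ?_, ?_⟩
    · rw [key]
      obtain ⟨g1, g2⟩ := h1 (l0 + 1 + k) (by omega)
      have g3 := hgt (l0 + 1 + k) (by omega) (by omega)
      unfold bx at g1
      refine ⟨?_, g2⟩
      unfold win
      push_cast
      omega
    · rw [key, show l0 + 1 + (n - (l0 + 1)) = n by omega, h3]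
      rintro ⟨⟨-, -, -, g4⟩, -⟩
      omega
    · rw [key, show l0 + 1 + (n - (l0 + 1)) = n by omega, h3]

/-! ### the four directions -/

/-- `k` rotations of the bits -/
def rB (k : ℕ) (b : ℤ → ℤ → Bool) : ℤ → ℤ → Bool := rotB^[k] b

/-- `k` rotations of a region -/
def rP (k : ℕ) (Λ : ℤ → ℤ → Prop) : ℤ → ℤ → Prop := rotP^[k] Λ

/-- `k` rotations of a state, backwards -/
def rI (k : ℕ) (t : St) : St := rotI^[k] t

lemma rI_iter_rot (k : ℕ) (t : St) : rI k (rot^[k] t) = t := by
  induction k generalizing t with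
  | zero => rfl
  | succ k ih =>
    unfold rI at ih ⊢
    rw [Function.iterate_succ_apply rotI, Function.iterate_succ_apply' rot, rotI_rot]
    exact ih t

lemma iter_rot_rI (k : ℕ) (t : St) : rot^[k] (rI k t) = t := by
  induction k generalizing t with
  | zero => rfl
  | succ k ih =>
    unfold rI at ih ⊢
    rw [Function.iterate_succ_apply rot, Function.iterate_succ_apply' rotI, rot_rotI]
    exact ih t

lemma pos_rB (k : ℕ) (t : St) (n : ℕ) : pos (rB k b) (rot^[k] t) n = rot^[k] (pos b t n) := by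
  induction k with
  | zero => rfl
  | succ k ih =>
    unfold rB at ih ⊢
    rw [Function.iterate_succ_apply' rotB, Function.iterate_succ_apply' rot,
      Function.iterate_succ_apply' rot, pos_rot, ih]

/-- in the direction `k`: the strand of the state `rI k ⟨x, m + 1, N⟩` crosses the rectangle -/
def Cr4 (b : ℤ → ℤ → Bool) (Λ : ℤ → ℤ → Prop) (m k : ℕ) (x : ℤ) : Prop :=
  CrL (rB k b) (rP k Λ) (-(2 * m + 1)) (-(2 * m + 1) + (4 * m + 2 : ℕ)) (m + 1) m x

/-- **leaving the box**: a walk from the inner box which leaves the box crosses one of the rectangles -/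
theorem exit_box {m : ℕ} (hm : 1 ≤ m) {Λ : ℤ → ℤ → Prop} {s e : St} (hs : bx (m + 1) s.i s.j)
    (h : Exits b (fun i j => bx (2 * m + 1) i j ∧ Λ i j) s e) (he : ¬ bx (2 * m + 1) e.i e.j) :
    ∃ (k l : ℕ) (x : ℤ), k < 4 ∧ -(2 * (m : ℤ) + 1) ≤ x ∧ x < 2 * m + 1 ∧
      pos b s l = rI k ⟨x, m + 1, .N⟩ ∧
      (∀ i ≤ l, bx (2 * m + 1) (pos b s i).i (pos b s i).j ∧ Λ (pos b s i).i (pos b s i).j) ∧
      Cr4 b Λ m k x := by
  -- the side of the exit
  have hside : e.j = 2 * m + 1 ∨ e.i = 2 * m + 1 ∨ e.j = -(2 * m + 1) - 1 ∨ e.i = -(2 * m + 1) - 1 := by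
    obtain ⟨n, h1, h2, h3⟩ := h
    rcases Nat.eq_zero_or_pos n with h0 | h0
    · subst h0
      rw [pos_zero] at h3
      subst h3
      exfalso
      apply he
      unfold bx at hs ⊢
      omega
    · obtain ⟨l, rfl⟩ := Nat.exists_eq_succ_of_ne_zero (by omega : n ≠ 0)
      have g1 := (h1 l (by omega)).1
      have g2 : e = step b (pos b s l) := by rw [← h3, Nat.succ_eq_add_one, pos_succ]
      have g3 : e.i = (pos b s l).i + e.d.dx := by rw [g2]; rfl
      have g4 : e.j = (pos b s l).j + e.d.dy := by rw [g2]; rfl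
      unfold bx at g1 he
      rcases hd : e.d with _ | _ | _ | _ <;> rw [hd] at g3 g4 <;> simp only [Dir.dx, Dir.dy] at g3 g4 <;>
        omega
  -- the general statement by rotations
  have gen : ∀ (k : ℕ) (b : ℤ → ℤ → Bool) (Λ : ℤ → ℤ → Prop) (s e : St),
      bx (m + 1) s.i s.j → Exits b (fun i j => bx (2 * m + 1) i j ∧ Λ i j) s e →
      (rot^[k] e).j = 2 * m + 1 →
      ∃ (l : ℕ) (x : ℤ), -(2 * (m : ℤ) + 1) ≤ x ∧ x < 2 * m + 1 ∧
        pos b s l = rI k ⟨x, m + 1, .N⟩ ∧
        (∀ i ≤ l, bx (2 * m + 1) (pos b s i).i (pos b s i).j ∧ Λ (pos b s i).i (pos b s i).j) ∧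
        Cr4 b Λ m k x := by
    intro k
    induction k with
    | zero =>
      intro b Λ s e hs h he
      obtain ⟨l, x, g1, g2, g3⟩ := exit_top hm (by unfold bx at hs; omega) h he
      have g4 := (g2 l le_rfl).1
      rw [g1] at g4
      unfold bx at g4
      simp only at g4
      exact ⟨l, x, by omega, by omega, g1, g2, g3⟩
    | succ k ih =>
      intro b Λ s e hs h he
      have h' := h.rot
      rw [rotP_bx] at h'
      have hs' : bx (m + 1) (rot s).i (rot s).j := by
        unfold bx rot at *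
        simp only
        omega
      obtain ⟨l, x, g1, g2, g3, g4, g5⟩ := ih (rotB b) (rotP Λ) (rot s) (rot e) hs' h' he
      refine ⟨l, x, g1, g2, ?_, ?_, ?_⟩
      · rw [pos_rot] at g3
        have := congrArg rotI g3
        rw [rotI_rot] at this
        rw [this]
        unfold rI
        rw [Function.iterate_succ_apply']
      · intro i hi
        have g6 := g4 i hi
        rw [pos_rot] at g6
        unfold bx rotP rot at g6
        unfold bx
        simp only [sub_neg_eq_add, neg_sub, add_sub_cancel_left] at g6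
        exact ⟨by omega, g6.2⟩
      · exact g5
  rcases hside with h1 | h1 | h1 | h1
  · obtain ⟨l, x, g⟩ := gen 0 b Λ s e hs h h1
    exact ⟨0, l, x, by norm_num, g⟩
  · obtain ⟨l, x, g⟩ := gen 1 b Λ s e hs h h1
    exact ⟨1, l, x, by norm_num, g⟩
  · obtain ⟨l, x, g⟩ := gen 2 b Λ s e hs h (by
      show -e.j - 1 = _
      rw [h1]
      ring)
    exact ⟨2, l, x, by norm_num, g⟩
  · obtain ⟨l, x, g⟩ := gen 3 b Λ s e hs h (by
      show -e.i - 1 = _
      rw [h1]
      ring)
    exact ⟨3, l, x, by norm_num, g⟩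

open scoped Classical in
/-- the number of the strands which cross the four rectangles around the inner box -/
noncomputable def X4 (b : ℤ → ℤ → Bool) (Λ : ℤ → ℤ → Prop) (m : ℕ) : ℕ :=
  ∑ k ∈ range 4, XL (rB k b) (rP k Λ) (-(2 * m + 1)) (-(2 * m + 1) + (4 * m + 2 : ℕ)) (m + 1) m

end Full.Walk
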