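import Pool.Agent.Full.Macro.Four

/-!
# All exponential moments of the number of the strands which leave finitely many boxes
-/

set_option autoImplicit false
set_option linter.unusedSectionVars false

namespace Full.Walk

open Finset Full.Mom
open Full.Perc (Ex)

section
variable {τ : Type*} [DecidableEq τ]

/-- complement of the configuration -/
lemma Ex_compl (T : Finset τ) (f : Finset τ → ℝ) : Ex T (fun ω => f (T \ ω)) = Ex T f := by
  unfold Ex
  congr 1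
  apply sum_nbij' (fun S => T \ S) (fun S => T \ S)
  · intro S _
    rw [mem_powerset]
    exact sdiff_subset
  · intro S _
    rw [mem_powerset]
    exact sdiff_subset
  · intro S hS
    exact Finset.sdiff_sdiff_eq_self (mem_powerset.1 hS)
  · intro S hS
    exact Finset.sdiff_sdiff_eq_self (mem_powerset.1 hS)
  · intro S _
    rfl

/-- the rotated chart -/
def rotF (φ : ℤ → ℤ → τ) : ℤ → ℤ → τ := fun p q => φ q (-p - 1)

lemma rB_cbits (φ : ℤ → ℤ → τ) (k : ℕ) :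
    (∀ ω, rB k (cbits φ ω) = cbits (rotF^[k] φ) ω) ∨
      (∀ ω, rB k (cbits φ ω) = fun p q => !cbits (rotF^[k] φ) ω p q) := by
  induction k with
  | zero => exact Or.inl fun _ => rfl
  | succ k ih =>
    unfold rB at ih ⊢
    simp only [Function.iterate_succ_apply' rotB, Function.iterate_succ_apply' rotF]
    rcases ih with h | h
    · right
      intro ω
      rw [h ω]
      rfl
    · left
      intro ω
      rw [h ω]
      unfold rotB
      funext p q
      rw [Bool.not_not]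
      rfl

/-- the tiles of a chart are different tiles of `T` -/
structure Emb (T : Finset τ) (φ : ℤ → ℤ → τ) (Λ : ℤ → ℤ → Prop) : Prop where
  mem : ∀ i j, Λ i j → φ i j ∈ T
  inj : ∀ i j i' j', Λ i j → Λ i' j' → φ i j = φ i' j' → i = i' ∧ j = j'

lemma Emb.rot {T : Finset τ} {φ : ℤ → ℤ → τ} {Λ : ℤ → ℤ → Prop} (h : Emb T φ Λ) (k : ℕ) :
    Emb T (rotF^[k] φ) (rP k Λ) := by
  induction k with
  | zero => exact h
  | succ k ih =>
    unfold rP at ih ⊢
    rw [Function.iterate_succ_apply' rotP, Function.iterate_succ_apply' rotF]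
    constructor
    · intro i j hl
      exact ih.mem _ _ hl
    · intro i j i' j' hl hl' he
      obtain ⟨h1, h2⟩ := ih.inj _ _ _ _ hl hl' he
      omega

end

/-- all exponential moments of the number of crossing strands, in each of the four directions -/
theorem Ex_dir_le {q : ℝ} (hq : RswQ q) {Q : ℝ} (hQ : 1 ≤ Q) :
    ∃ C : ℝ, 1 ≤ C ∧ ∀ (τ : Type*) [DecidableEq τ] (T : Finset τ) (φ : ℤ → ℤ → τ) (Λ : ℤ → ℤ → Prop)
      (m k : ℕ), 1 ≤ m → Emb T φ Λ →
      Ex T (fun ω => Q ^ XL (rB k (cbits φ ω)) (rP k Λ) (-(2 * m + 1))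
        (-(2 * m + 1) + (4 * m + 2 : ℕ)) (m + 1) m) ≤ C := by
  obtain ⟨C, hC1, hC⟩ := Ex_XL_le hq (α := 6) (by norm_num) hQ
  refine ⟨C, hC1, ?_⟩
  intro τ _ T φ Λ m k hm hE
  have hE' := hE.rot k
  have hw : ((4 * m + 2 : ℕ) : ℝ) ≤ 6 * m := by
    have : (1 : ℝ) ≤ m := by exact_mod_cast hm
    push_cast
    linarith
  have h1 := hC τ T (rotF^[k] φ) (rP k Λ) (-(2 * m + 1)) (m + 1) (4 * m + 2) m hw
    (fun i j _ hl => hE'.mem i j hl) (fun i j i' j' _ hl _ hl' he => hE'.inj i j i' j' hl hl' he)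
  rcases rB_cbits φ k with h | h
  · simp only [h]
    exact h1
  · rw [← Ex_compl] at h1
    refine le_trans (le_of_eq ?_) h1
    apply Full.Perc.Ex_congr
    intro ω _
    rw [h ω]
    congr 1
    apply XL_congr
    intro i j _ hl
    have h2 := hE'.mem i j hl
    unfold cbits
    simp [h2]

lemma pow_sum_leM {κ : Type*} (I : Finset κ) (x : κ → ℕ) {Q : ℝ} (hQ : 1 ≤ Q) {n : ℕ} (hn : I.card ≤ n) :
    Q ^ (∑ i ∈ I, x i) ≤ 1 + ∑ i ∈ I, (Q ^ n) ^ x i := by
  rcases I.eq_empty_or_nonempty with h0 | h0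
  · subst h0
    simp
  · obtain ⟨i, hi, hmax⟩ := I.exists_max_image x h0
    have h1 : ∑ j ∈ I, x j ≤ n * x i := by
      calc ∑ j ∈ I, x j ≤ ∑ _j ∈ I, x i := sum_le_sum fun j hj => hmax j hj
        _ = I.card * x i := by rw [sum_const, smul_eq_mul]
        _ ≤ n * x i := Nat.mul_le_mul_right _ hn
    have h2 : Q ^ (∑ i ∈ I, x i) ≤ (Q ^ n) ^ x i := by
      rw [← pow_mul]
      exact pow_le_pow_right₀ hQ h1
    have h3 : (Q ^ n) ^ x i ≤ ∑ i ∈ I, (Q ^ n) ^ x i :=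
      single_le_sum (f := fun i => (Q ^ n) ^ x i) (fun j _ => by positivity) hi
    linarith

/-- **macroscopic strands, moments**: finitely many boxes -/
theorem Ex_X4_le {q : ℝ} (hq : RswQ q) {Q : ℝ} (hQ : 1 ≤ Q) (B : ℕ) :
    ∃ C : ℝ, 1 ≤ C ∧ ∀ (τ : Type*) [DecidableEq τ] (T : Finset τ) (κ : Type*) [Fintype κ]
      (φ : κ → ℤ → ℤ → τ) (Λ : κ → ℤ → ℤ → Prop) (m : ℕ), Fintype.card κ ≤ B → 1 ≤ m →
      (∀ a, Emb T (φ a) (Λ a)) →
      Ex T (fun ω => Q ^ (∑ a, X4 (cbits (φ a) ω) (Λ a) m)) ≤ C := by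
  obtain ⟨C, hC1, hC⟩ := Ex_dir_le hq (Q := Q ^ (B * 4)) (one_le_pow₀ hQ)
  refine ⟨1 + (B * 4 : ℕ) * C, ?_, ?_⟩
  · have : 0 ≤ ((B * 4 : ℕ) : ℝ) * C := by positivity
    linarith
  intro τ _ T κ _ φ Λ m hB hm hE
  classical
  have h1 : ∀ ω : Finset τ, Q ^ (∑ a, X4 (cbits (φ a) ω) (Λ a) m) ≤
      1 + ∑ p ∈ (univ : Finset κ) ×ˢ range 4, (Q ^ (B * 4)) ^ XL (rB p.2 (cbits (φ p.1) ω)) (rP p.2 (Λ p.1))
        (-(2 * m + 1)) (-(2 * m + 1) + (4 * m + 2 : ℕ)) (m + 1) m := by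
    intro ω
    have h2 := pow_sum_leM ((univ : Finset κ) ×ˢ range 4)
      (fun p => XL (rB p.2 (cbits (φ p.1) ω)) (rP p.2 (Λ p.1))
        (-(2 * m + 1)) (-(2 * m + 1) + (4 * m + 2 : ℕ)) (m + 1) m) hQ (n := B * 4)
      (by rw [card_product, card_univ, card_range]; exact Nat.mul_le_mul_right _ hB)
    refine le_trans (le_of_eq ?_) h2
    congr 1
    rw [sum_product]
    rfl
  refine (Full.Perc.Ex_mono fun ω _ => h1 ω).trans ?_
  rw [Full.Perc.Ex_add, Full.Perc.Ex_const, Full.Perc.Ex_sum]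
  have h3 : ∑ p ∈ (univ : Finset κ) ×ˢ range 4, Ex T (fun ω => (Q ^ (B * 4)) ^ XL (rB p.2 (cbits (φ p.1) ω))
      (rP p.2 (Λ p.1)) (-(2 * m + 1)) (-(2 * m + 1) + (4 * m + 2 : ℕ)) (m + 1) m) ≤
      ∑ _p ∈ (univ : Finset κ) ×ˢ range 4, C :=
    sum_le_sum fun p _ => hC τ T (φ p.1) (Λ p.1) m p.2 hm (hE p.1)
  refine add_le_add_right (h3.trans ?_) 1
  rw [sum_const, card_product, card_univ, card_range, nsmul_eq_mul]
  refine mul_le_mul_of_nonneg_right ?_ (by linarith)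
  exact_mod_cast Nat.mul_le_mul_right 4 hB

end Full.Walk
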