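import Pool.Agent.Full.Macro.Main
import Pool.Agent.Full.Def.Inst

/-!
# Macroscopic strands of planar regions

For every finite set `T` of tiles of the plane in a box of side `2 n m` and every gluing of `T` which glues
only planar neighbours: all exponential moments of the number of the strands whose diameter is larger
than `3 m`.
-/

set_option autoImplicit false

namespace Full.Macro

open Finset Full.Mom
open Full.Perc (Ex)
open Full.Walk (bx)

/-- only planar neighbours in `T` are glued -/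
def PlSub (T : Finset (ℤ × ℤ)) (g : Half (ℤ × ℤ) → Half (ℤ × ℤ)) : Prop :=
  ∀ t ∈ T, ∀ d : Full.Dir, g (t, d) = (t, d) ∨ (t + d.vec ∈ T ∧ g (t, d) = (t + d.vec, d.opp))

lemma plSub_plane (T : Finset (ℤ × ℤ)) : PlSub T (plane.glue T) := by
  intro t ht d
  rw [plane_glue]
  split_ifs with h
  · exact Or.inr ⟨h.2, rfl⟩
  · exact Or.inl rfl

lemma vec_sd (d : Walk.Dir) : (sd d).vec = (d.dx, d.dy) := by cases d <;> rfl

/-- the chart around the corner `(a, b)` -/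
def planeBox {T : Finset (ℤ × ℤ)} {g : Half (ℤ × ℤ) → Half (ℤ × ℤ)} (hg : PlSub T g) (a b : ℤ) (m : ℕ) :
    Box T g m where
  φ i j := (i + a, j + b)
  Λ i j := bx (2 * m + 1) i j ∧ (i + a, j + b) ∈ T
  sub _ _ h := h.1
  mem _ _ h := h.2
  inj i j i' j' _ _ h := by
    have h1 := congrArg Prod.fst h
    have h2 := congrArg Prod.snd h
    simp only at h1 h2
    exact ⟨by omega, by omega⟩
  glue i j d h hb := by
    have e1 : ((i + a, j + b) : ℤ × ℤ) + (sd d).vec = (i + d.dx + a, j + d.dy + b) := by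
      rw [vec_sd]
      refine Prod.ext ?_ ?_ <;> simp only [Prod.fst_add, Prod.snd_add] <;> ring
    rcases hg _ h.2 (sd d) with h1 | ⟨h1, h2⟩
    · exact Or.inl h1
    · right
      rw [e1] at h1 h2
      exact ⟨⟨hb, h1⟩, by rw [h2, sd_neg]⟩

/-- sup-distance of tiles -/
def far2 (r : ℤ) (t t' : ℤ × ℤ) : Prop := r ≤ |t.1 - t'.1| ∨ r ≤ |t.2 - t'.2|

lemma not_holds_of_far {T : Finset (ℤ × ℤ)} {g : Half (ℤ × ℤ) → Half (ℤ × ℤ)} (hg : PlSub T g) {a b : ℤ}
    {m : ℕ} {ω : Finset (ℤ × ℤ)} {y z : Half (ℤ × ℤ)} (hy : (planeBox hg a b m).Inner y)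
    (hc : Full.Conn (mate ω) g y z) (hf : far2 (3 * m + 1) y.1 z.1) : ¬ (planeBox hg a b m).Holds ω y := by
  intro hh
  obtain ⟨i, j, h1, h2⟩ := hh z hc
  obtain ⟨i', j', -, h3, h4⟩ := hy
  have h5 : bx (2 * m + 1) i j := h1.1
  have h6 : z.1 = (i + a, j + b) := h2
  have h7 : y.1 = (i' + a, j' + b) := h4
  unfold bx at h3 h5
  unfold far2 at hf
  rw [h6, h7] at hf
  simp only at hf
  rcases hf with hf | hf
  · rcases abs_cases (i' + a - (i + a)) with ⟨g1, g2⟩ | ⟨g1, g2⟩ <;> omega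
  · rcases abs_cases (j' + b - (j + b)) with ⟨g1, g2⟩ | ⟨g1, g2⟩ <;> omega

/-- **planar regions**: `N ω` is a bound of the number of different strands of diameter larger than `3 m` -/
theorem plane_moment {Q : ℝ} (hQ : 1 ≤ Q) (n : ℕ) :
    ∃ C : ℝ, 1 ≤ C ∧ ∀ (T : Finset (ℤ × ℤ)) (g : Half (ℤ × ℤ) → Half (ℤ × ℤ)) (m : ℕ) (x0 y0 : ℤ),
      1 ≤ m → Glu T g → PlSub T g →
      (∀ t ∈ T, x0 ≤ t.1 ∧ t.1 < x0 + 2 * n * m ∧ y0 ≤ t.2 ∧ t.2 < y0 + 2 * n * m) →
      ∃ N : Finset (ℤ × ℤ) → ℕ, Ex T (fun ω => Q ^ N ω) ≤ C ∧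
        ∀ (ω : Finset (ℤ × ℤ)) (S : Finset (Half (ℤ × ℤ))),
          (∀ x ∈ S, ∀ y ∈ S, Full.Conn (mate ω) g x y → x = y) → (∀ x ∈ S, x.1 ∈ T) →
          (∀ y ∈ S, ∃ z, Full.Conn (mate ω) g y z ∧ far2 (3 * m + 1) y.1 z.1) → S.card ≤ N ω := by
  obtain ⟨C, hC1, hC⟩ := moment hQ (n * n)
  refine ⟨C, hC1, ?_⟩
  intro T g m x0 y0 hm hG hg hT
  set c : Fin n × Fin n → Box T g m := fun p =>
    planeBox hg (x0 + m + 2 * m * (p.1 : ℕ)) (y0 + m + 2 * m * (p.2 : ℕ)) m with hc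
  refine ⟨fun ω => ∑ a, (c a).X ω, ?_, ?_⟩
  · apply hC (ℤ × ℤ) T g m (Fin n × Fin n) c _ hm
    rw [Fintype.card_prod, Fintype.card_fin]
  · intro ω S hS hST hfar
    apply macro_count hG hm c ω S hS
    intro y hy
    obtain ⟨z, hz1, hz2⟩ := hfar y hy
    obtain ⟨h1, h2, h3, h4⟩ := hT _ (hST y hy)
    have hm0 : (0 : ℤ) < 2 * m := by omega
    -- the box of `y`
    have key : ∀ u u0 : ℤ, u0 ≤ u → u < u0 + 2 * n * m → ∃ p : Fin n, 2 * m * ((p : ℕ) : ℤ) ≤ u - u0 ∧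
        u - u0 < 2 * m * ((p : ℕ) : ℤ) + 2 * m := by
      intro u u0 g1 g2
      have g3 := Int.emod_nonneg (u - u0) hm0.ne'
      have g4 := Int.emod_lt_of_pos (u - u0) hm0
      have g5 := Int.mul_ediv_add_emod (u - u0) (2 * m)
      have g6 : 0 ≤ (u - u0) / (2 * m) := Int.ediv_nonneg (by omega) hm0.le
      have g7 : (u - u0) / (2 * m) < n := by
        apply Int.ediv_lt_of_lt_mul hm0
        nlinarith
      refine ⟨⟨((u - u0) / (2 * m)).toNat, by omega⟩, ?_, ?_⟩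
      · simp only
        rw [Int.toNat_of_nonneg g6]
        linarith
      · simp only
        rw [Int.toNat_of_nonneg g6]
        linarith
    obtain ⟨p, p1, p2⟩ := key _ _ h1 h2
    obtain ⟨p', p3, p4⟩ := key _ _ h3 h4
    have hin : (c (p, p')).Inner y := by
      refine ⟨y.1.1 - (x0 + m + 2 * m * ((p : ℕ) : ℤ)), y.1.2 - (y0 + m + 2 * m * ((p' : ℕ) : ℤ)), ?_, ?_, ?_⟩
      · refine ⟨?_, ?_⟩
        · unfold bx
          exact ⟨by linarith, by linarith, by linarith, by linarith⟩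
        · rw [sub_add_cancel, sub_add_cancel]
          exact hST y hy
      · unfold bx
        exact ⟨by linarith, by linarith, by linarith, by linarith⟩
      · show y.1 = (_, _)
        rw [sub_add_cancel, sub_add_cancel]
    exact ⟨(p, p'), hin, not_holds_of_far hg hin hz1 hz2⟩

end Full.Macro
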