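import Pool.Agent.Full.Walk.Channel

/-!
# Strands which cross a rectangle: all exponential moments

`CrL b Λ a c s H x`: the strand which enters the rectangle `[a, c) × [s, s + H)` at the column `x` of its
floor stays in the tiles of `Λ` of the rectangle and leaves it through its top.  `XL` is the number of these
strands.  For every `Q` and every bound of the aspect ratio `E[Q ^ XL] ≤ C`.
-/

set_option autoImplicit false
set_option linter.unusedSectionVars false

namespace Full.Walk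

open Finset Full.Mom
open Full.Perc (Ex)

variable {b : ℤ → ℤ → Bool}

/-- the strand which enters the rectangle `[a, c) × [s, s + H)` at the column `x` of its floor leaves it
through its top, and stays in `Λ` until then -/
def CrL (b : ℤ → ℤ → Bool) (Λ : ℤ → ℤ → Prop) (a c s : ℤ) (H : ℕ) (x : ℤ) : Prop :=
  ∃ e, Exits b (fun i j => win a c s H i j ∧ Λ i j) ⟨x, s, .N⟩ e ∧ e.j = s + H

open scoped Classical in
/-- the number of these strands -/
noncomputable def XL (b : ℤ → ℤ → Bool) (Λ : ℤ → ℤ → Prop) (a c s : ℤ) (H : ℕ) : ℕ :=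
  ((Ico a c).filter (fun x : ℤ => CrL b Λ a c s H x)).card

lemma CrL.crR {Λ : ℤ → ℤ → Prop} {a c s : ℤ} {H : ℕ} {x : ℤ} (h : CrL b Λ a c s H x) :
    CrR b a c s H x := by
  obtain ⟨e, ⟨n, h1, h2, h3⟩, h4⟩ := h
  refine ⟨e, ⟨n, fun k hk => (h1 k hk).1, ?_, h3⟩, h4⟩
  rw [h3]
  rintro ⟨-, -, -, h5⟩
  omega

lemma CrL.congr {Λ : ℤ → ℤ → Prop} {b' : ℤ → ℤ → Bool} {a c s : ℤ} {H : ℕ} {x : ℤ}
    (hb : ∀ i j, win a c s H i j → Λ i j → b i j = b' i j) (h : CrL b Λ a c s H x) :
    CrL b' Λ a c s H x := by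
  obtain ⟨e, h1, h2⟩ := h
  exact ⟨e, h1.congr (fun i j hw => hb i j hw.1 hw.2), h2⟩

lemma XL_congr {Λ : ℤ → ℤ → Prop} {b' : ℤ → ℤ → Bool} {a c s : ℤ} {H : ℕ}
    (hb : ∀ i j, win a c s H i j → Λ i j → b i j = b' i j) : XL b Λ a c s H = XL b' Λ a c s H := by
  classical
  unfold XL
  congr 1
  apply filter_congr
  intro x _
  exact ⟨fun h1 => h1.congr hb, fun h1 => h1.congr (fun i j hw hl => (hb i j hw hl).symm)⟩

lemma XL_le_XR (Λ : ℤ → ℤ → Prop) (a c s : ℤ) (H : ℕ) : XL b Λ a c s H ≤ XR b a c s H := by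
  classical
  unfold XL XR
  apply card_le_card
  intro x hx
  rw [mem_filter] at hx ⊢
  exact ⟨hx.1, hx.2.crR⟩

/-! ### translations -/

/-- translation of a state -/
def tr (u v : ℤ) (t : St) : St := ⟨t.i + u, t.j + v, t.d⟩

lemma pos_tr (u v : ℤ) (t : St) : ∀ n : ℕ,
    pos b (tr u v t) n = tr u v (pos (fun i j => b (i + u) (j + v)) t n)
  | 0 => rfl
  | n + 1 => by
    rw [pos_succ, pos_succ, pos_tr u v t n]
    unfold step tr
    ext
    · simp only; ring
    · simp only; ring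
    · rfl

lemma CrR.tr {u v a c s : ℤ} {H : ℕ} {x : ℤ} (h : CrR b a c s H x) :
    CrR (fun i j => b (i + u) (j + v)) (a - u) (c - u) (s - v) H (x - u) := by
  obtain ⟨e, ⟨n, h1, h2, h3⟩, h4⟩ := h
  have key : ∀ m, Full.Walk.tr u v (pos (fun i j => b (i + u) (j + v)) ⟨x - u, s - v, .N⟩ m) =
      pos b ⟨x, s, .N⟩ m := by
    intro m
    rw [← pos_tr]
    congr 1
    unfold Full.Walk.tr
    ext
    · simp
    · simp
    · rfl
  have k1 : ∀ m, (pos b ⟨x, s, .N⟩ m).i = (pos (fun i j => b (i + u) (j + v)) ⟨x - u, s - v, .N⟩ m).i + u :=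
    fun m => by rw [← key]; rfl
  have k2 : ∀ m, (pos b ⟨x, s, .N⟩ m).j = (pos (fun i j => b (i + u) (j + v)) ⟨x - u, s - v, .N⟩ m).j + v :=
    fun m => by rw [← key]; rfl
  refine ⟨_, ⟨n, fun m hm => ?_, ?_, rfl⟩, ?_⟩
  · have h5 := h1 m hm
    unfold win at h5 ⊢
    rw [k1, k2] at h5
    omega
  · intro hw
    apply h2
    unfold win at hw ⊢
    rw [k1, k2]
    omega
  · have h6 := k2 n
    rw [h3] at h6
    omega

lemma XR_tr (u v a c s : ℤ) (H : ℕ) :
    XR b a c s H ≤ XR (fun i j => b (i + u) (j + v)) (a - u) (c - u) (s - v) H := by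
  classical
  unfold XR
  apply card_le_card_of_injOn (fun x => x - u)
  · intro x hx
    rw [mem_coe, mem_filter, mem_Ico] at hx ⊢
    exact ⟨by dsimp only; omega, hx.2.tr⟩
  · intro x _ y _ hxy
    dsimp only at hxy
    omega

/-! ### a rectangle is a part of the cylinder of the same width -/

lemma XR_le_tcountM {b' : ℤ → ℤ → Bool} {w : ℕ} {s : ℤ} {K : ℕ}
    (hb : ∀ i j : ℤ, 0 ≤ i → i < w → b i j = b' i j) : XR b 0 w s K ≤ tcount b' w s K := by
  classical
  unfold XR tcount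
  apply card_le_card_of_injOn (fun x => x.toNat)
  · intro x hx
    rw [mem_coe, mem_filter, mem_Ico] at hx
    rw [mem_coe, mem_filter, mem_range]
    refine ⟨by show x.toNat < w; omega, ?_⟩
    obtain ⟨e, ⟨n, h1, h2, h3⟩, h4⟩ := hx.2
    have h5 : ((x.toNat : ℕ) : ℤ) = x := Int.toNat_of_nonneg hx.1.1
    show Thr b' s K ((x.toNat : ℕ) : ℤ)
    rw [h5]
    have h6 : Exits b' (win 0 w s K) ⟨x, s, .N⟩ e := by
      refine Exits.congr ?_ ⟨n, h1, h2, h3⟩
      intro i j hw
      exact hb i j hw.1 hw.2.1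
    obtain ⟨n', g1, g2, g3⟩ := h6
    refine ⟨e, ⟨n', fun m hm => (g1 m hm).2.2, ?_, g3⟩, h4⟩
    rw [g3]
    rintro ⟨-, h7⟩
    omega
  · intro x hx y hy hxy
    rw [mem_coe, mem_filter, mem_Ico] at hx hy
    dsimp only at hxy
    omega

/-! ### the moments -/

/-- the index of the tile `(i, j)` in the cylinder with `w` columns and `K` rows -/
def ci (w K : ℕ) [NeZero w] [NeZero K] (i j : ℤ) : ZMod w × ZMod K := ((i : ZMod w), (j : ZMod K))

lemma ci_cyl (w K : ℕ) [NeZero w] [NeZero K] : Cyl w K (ci w K) := by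
  constructor
  · intro i j
    unfold ci
    simp
  · intro i j i' j' h1 h2 h3 h4 h
    unfold ci at h
    have e1 := congrArg Prod.fst h
    have e2 := congrArg Prod.snd h
    simp only at e1 e2
    rw [ZMod.intCast_eq_intCast_iff_dvd_sub] at e1 e2
    obtain ⟨k, hk⟩ := e1
    obtain ⟨l, hl⟩ := e2
    refine ⟨?_, k, by linarith⟩
    have hl0 : l = 0 := by
      by_contra hne
      rcases lt_or_gt_of_ne hne with hlt | hlt
      · have : (K : ℤ) * l ≤ K * (-1) := mul_le_mul_of_nonneg_left (by omega) (by omega)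
        linarith
      · have : (K : ℤ) * 1 ≤ K * l := mul_le_mul_of_nonneg_left (by omega) (by omega)
        linarith
    rw [hl0, mul_zero] at hl
    linarith

lemma sbits_congr_XR {F : Finset (ℤ × ℤ)} {a s : ℤ} {w K : ℕ} (hF : winF a (a + w) s K ⊆ F)
    {b b' : ℤ → ℤ → Bool} (h : ∀ t ∈ F, b t.1 t.2 = b' t.1 t.2) :
    XR b a (a + w) s K = XR b' a (a + w) s K := by
  apply XR_congr
  intro i j hw
  exact h (i, j) (hF (by rw [mem_winF]; exact hw))

/-- all exponential moments of the number of the strands which cross a rectangle -/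
theorem Ex_XR_le {q : ℝ} (hq : RswQ q) {α Q : ℝ} (hα : 0 < α) (hQ : 1 ≤ Q) :
    ∃ C : ℝ, 1 ≤ C ∧ ∀ (a s : ℤ) (w K : ℕ), (w : ℝ) ≤ α * K →
      Ex (winF a (a + w) s K) (fun S => Q ^ XR (sbits S) a (a + w) s K) ≤ C := by
  have hδ : 0 < 1 / α := by positivity
  obtain ⟨C, hC1, hC⟩ := exp_moment.{0} hq hδ hQ
  refine ⟨C, hC1, ?_⟩
  intro a s w K hw
  rcases Nat.eq_zero_or_pos w with hw0 | hw0
  · subst hw0
    have h1 : ∀ S : Finset (ℤ × ℤ), XR (sbits S) a (a + (0 : ℕ)) s K = 0 := by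
      intro S
      unfold XR
      simp
    simp only [h1, pow_zero]
    rw [Full.Perc.Ex_const]
    exact hC1
  · have hK0 : 0 < K := by
      rcases Nat.eq_zero_or_pos K with hK | hK
      · exfalso
        rw [hK] at hw
        have : (0 : ℝ) < w := by exact_mod_cast hw0
        push_cast at hw
        linarith
      · exact hK
    have : NeZero w := ⟨hw0.ne'⟩
    have : NeZero K := ⟨hK0.ne'⟩
    have h1 := hC (ZMod w × ZMod K) w K (ci w K) (ci_cyl w K) (by
      rw [one_div, inv_mul_le_iff₀ hα]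
      exact hw)
    -- the same tiles, translated
    have hcyl := ci_cyl w K
    have h2 : avg (fun ω : ZMod w × ZMod K → Bool =>
        Q ^ XR (bits (fun i j => ci w K (i - a) (j - s)) ω) a (a + w) s K) =
        Ex (winF a (a + w) s K) (fun S => Q ^ XR (sbits S) a (a + w) s K) := by
      refine avg_bits _ (winF a (a + w) s K) ?_ (fun b => Q ^ XR b a (a + w) s K) ?_
      · intro t ht t' ht' h
        rw [mem_winF] at ht ht'
        obtain ⟨e1, k, e2⟩ := hcyl.inj _ _ _ _ (by omega) (by omega) (by omega) (by omega) h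
        have hk : k = 0 := by
          by_contra hne
          rcases lt_or_gt_of_ne hne with hlt | hlt
          · have : k * (w : ℤ) ≤ (-1) * w := mul_le_mul_of_nonneg_right (by omega) (by omega)
            linarith
          · have : 1 * (w : ℤ) ≤ k * w := mul_le_mul_of_nonneg_right (by omega) (by omega)
            linarith
        rw [hk, zero_mul] at e2
        ext
        · linarith
        · linarith
      · intro b b' h
        rw [sbits_congr_XR (Subset.refl _) h]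
    rw [← h2]
    refine (avg_mono fun ω => ?_).trans h1
    apply pow_le_pow_right₀ hQ
    refine (XR_tr a s a (a + w) s K).trans ?_
    have e1 : a - a = 0 := by ring
    have e2 : a + (w : ℤ) - a = w := by ring
    have e3 : s - s = 0 := by ring
    rw [e1, e2, e3]
    apply XR_le_tcountM
    intro i j _ _
    unfold bits
    simp only [add_sub_cancel_right]

/-- the average over a larger set -/
lemma Ex_sbits_subset {F F' : Finset (ℤ × ℤ)} (hF : F' ⊆ F) (f : (ℤ → ℤ → Bool) → ℝ)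
    (hf : ∀ b b' : ℤ → ℤ → Bool, (∀ t ∈ F', b t.1 t.2 = b' t.1 t.2) → f b = f b') :
    Ex F' (fun S => f (sbits S)) = Ex F (fun S => f (sbits S)) := by
  classical
  rcases F.eq_empty_or_nonempty with h0 | ⟨t0, ht0⟩
  · subst h0
    rw [subset_empty.1 hF]
  · -- the index system `F`
    set τ : ℤ → ℤ → F := fun i j => if h : (i, j) ∈ F then ⟨(i, j), h⟩ else ⟨t0, ht0⟩ with hτ
    have hinj : ∀ t ∈ F, ∀ t' ∈ F, τ t.1 t.2 = τ t'.1 t'.2 → t = t' := by
      intro t ht t' ht' h
      rw [hτ] at h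
      simp only [Prod.mk.eta, dif_pos ht, dif_pos ht'] at h
      exact congrArg Subtype.val h
    rw [← avg_bits τ F' (fun t ht t' ht' => hinj t (hF ht) t' (hF ht')) f hf,
      ← avg_bits τ F hinj f (fun b b' h => hf b b' (fun t ht => h t (hF ht)))]

/-- all exponential moments of the number of the strands in `Λ` which cross a rectangle, in a chart -/
theorem Ex_XL_le {q : ℝ} (hq : RswQ q) {α Q : ℝ} (hα : 0 < α) (hQ : 1 ≤ Q) :
    ∃ C : ℝ, 1 ≤ C ∧ ∀ (τ : Type*) [DecidableEq τ] (T : Finset τ) (ψ : ℤ → ℤ → τ) (Λ : ℤ → ℤ → Prop)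
      (a s : ℤ) (w K : ℕ), (w : ℝ) ≤ α * K →
      (∀ i j, win a (a + w) s K i j → Λ i j → ψ i j ∈ T) →
      (∀ i j i' j', win a (a + w) s K i j → Λ i j → win a (a + w) s K i' j' → Λ i' j' →
        ψ i j = ψ i' j' → i = i' ∧ j = j') →
      Ex T (fun ω => Q ^ XL (cbits ψ ω) Λ a (a + w) s K) ≤ C := by
  classical
  obtain ⟨C, hC1, hC⟩ := Ex_XR_le hq hα hQ
  refine ⟨C, hC1, ?_⟩
  intro τ _ T ψ Λ a s w K hw hmem hinj
  set F := winF a (a + w) s K with hF
  set F' := F.filter (fun t => Λ t.1 t.2) with hF'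
  have hmF' : ∀ t, t ∈ F' ↔ win a (a + w) s K t.1 t.2 ∧ Λ t.1 t.2 := by
    intro t
    rw [hF', mem_filter, hF, mem_winF]
    rfl
  rcases T.eq_empty_or_nonempty with hT | hT
  · -- no tiles: no crossing strands
    subst hT
    have h0 : ∀ S ⊆ (∅ : Finset τ), Q ^ XL (cbits ψ S) Λ a (a + w) s K ≤
        Q ^ XL (cbits ψ (∅ : Finset τ)) Λ a (a + w) s K := by
      intro S hS
      rw [subset_empty.1 hS]
    have h1 : F' = ∅ := by
      rw [eq_empty_iff_forall_notMem]
      intro t ht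
      have h2 := (hmF' t).1 ht
      exact absurd (hmem _ _ h2.1 h2.2) (notMem_empty _)
    have h2 : Ex F' (fun S => Q ^ XL (sbits S) Λ a (a + w) s K) =
        Ex F (fun S => Q ^ XL (sbits S) Λ a (a + w) s K) :=
      Ex_sbits_subset (filter_subset _ _) (fun b => Q ^ XL b Λ a (a + w) s K) (fun b b' h => by
        rw [XL_congr (fun i j hw hl => h (i, j) ((hmF' _).2 ⟨hw, hl⟩))])
    have h3 : Ex F (fun S => Q ^ XL (sbits S) Λ a (a + w) s K) ≤ C :=
      (Full.Perc.Ex_mono fun S _ => pow_le_pow_right₀ hQ (XL_le_XR Λ a (a + w) s K)).trans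
        (hC a s w K hw)
    rw [← h2, h1] at h3
    have h4 : Ex (∅ : Finset τ) (fun ω => Q ^ XL (cbits ψ ω) Λ a (a + w) s K) =
        Q ^ XL (cbits ψ (∅ : Finset τ)) Λ a (a + w) s K := by
      unfold Ex
      simp
    have h5 : Ex (∅ : Finset (ℤ × ℤ)) (fun S => Q ^ XL (sbits S) Λ a (a + w) s K) =
        Q ^ XL (sbits (∅ : Finset (ℤ × ℤ))) Λ a (a + w) s K := by
      unfold Ex
      simp
    rw [h4]
    rw [h5] at h3
    refine le_trans (le_of_eq ?_) h3
    rw [XL_congr (b := cbits ψ (∅ : Finset τ)) (b' := sbits (∅ : Finset (ℤ × ℤ)))]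
    intro i j hw hl
    exact absurd (hmem _ _ hw hl) (notMem_empty _)
  · have hinj' : ∀ t ∈ F', ∀ t' ∈ F', idx T hT ψ t.1 t.2 = idx T hT ψ t'.1 t'.2 → t = t' := by
      intro t ht t' ht' h
      rw [hmF'] at ht ht'
      rw [idx_of_mem hT (hmem _ _ ht.1 ht.2), idx_of_mem hT (hmem _ _ ht'.1 ht'.2)] at h
      obtain ⟨e1, e2⟩ := hinj _ _ _ _ ht.1 ht.2 ht'.1 ht'.2 (congrArg Subtype.val h)
      exact Prod.ext e1 e2
    have hdep : ∀ b b' : ℤ → ℤ → Bool, (∀ t ∈ F', b t.1 t.2 = b' t.1 t.2) →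
        Q ^ XL b Λ a (a + w) s K = Q ^ XL b' Λ a (a + w) s K := by
      intro b b' h
      rw [XL_congr (fun i j hw hl => h (i, j) ((hmF' _).2 ⟨hw, hl⟩))]
    have h1 : Ex T (fun ω => Q ^ XL (cbits ψ ω) Λ a (a + w) s K) =
        avg (fun ω : T → Bool => Q ^ XL (bits (idx T hT ψ) ω) Λ a (a + w) s K) := by
      rw [Ex_eq_avg]
      congr 1
      funext ω
      congr 1
      apply XL_congr
      intro i j hw hl
      exact cbits_ofBits hT (hmem i j hw hl) ω
    rw [h1, avg_bits (idx T hT ψ) F' hinj' (fun b => Q ^ XL b Λ a (a + w) s K) hdep,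
      Ex_sbits_subset (filter_subset _ _) (fun b => Q ^ XL b Λ a (a + w) s K) hdep]
    exact (Full.Perc.Ex_mono fun S _ => pow_le_pow_right₀ hQ (XL_le_XR Λ a (a + w) s K)).trans
      (hC a s w K hw)

end Full.Walk
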